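import Pool.Agent.helper73.BRZ.Spec

set_option autoImplicit false

namespace Pool.Agent.BRZ

open Matrix Module Pool.Agent.PR Pool.Agent.SHL TensorProduct MeasureTheory
open scoped ENNReal ContDiff RealInnerProductSpace FourierTransform SchwartzMap

theorem BMP (hRAL : RAL_stmt) : BMP_stmt := by
  intro d D _ _ _ hd S
  obtain ⟨-, -, hc, -, -, -, -, -, -, -, h1⟩ := hRAL d D hd S
  have ho : IsOpen {g : EE (d * d) | S.dl g ≠ 0} := isOpen_ne_fun hc continuous_const
  have hm : S.ev 1 ∈ {g : EE (d * d) | S.dl g ≠ 0} := by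
    show S.dl (S.ev 1) ≠ 0
    rw [h1]
    exact one_ne_zero
  obtain ⟨ε, hε, hsub⟩ := Metric.nhds_basis_closedBall.mem_iff.1 (ho.mem_nhds hm)
  let φ : ContDiffBump (S.ev 1 : EE (d * d)) := ⟨ε / 2, ε, by positivity, by linarith⟩
  refine ⟨φ, φ.contDiff, φ.hasCompactSupport, fun g => φ.nonneg, ?_, φ.integral_pos⟩
  intro g hg
  rw [φ.tsupport_eq] at hg
  exact hsub hg

end Pool.Agent.BRZ
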